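import Pool.Agent.N275.QD.Res
import Pool.Agent.N275.GP.Fin2

set_option autoImplicit false

/-!
# Convex domains with the Dirichlet spectrum of a convex quadrilateral

Let `P` be a convex quadrilateral which has two parallel sides or whose two pairs of opposite sides
have different distances. Every bounded convex domain of the plane with the same Dirichlet spectrum is
congruent to `P`, or it is a convex polygon with `k ≥ 4` vertices, where `k` times the least distance
of opposite sides of `P` is at most the perimeter of `P`; if `k = 4`, then this quadrilateral has no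
parallel sides and equal distances of the two pairs of opposite sides. In particular any two
isospectral convex quadrilaterals outside this exceptional hypersurface are congruent.

The convex domain is a polygon by the expansion of the heat trace near a polygon (project of
helper596), it is not a triangle by the starting library `R225/LP`, and the quadrilaterals are the
project `N275/QD`: `4 π t` times the heat trace is the expected area of the set of positions of a
random loop of duration `t` inside the polygon; the loops which come round both vertices of the side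
between the two nearest opposite sides determine this side and its two angles.
-/

open Set Filter
open Pool.Agent.W780.PG (IsConvexPolygon region)
open Pool.Agent.W703.GP (dirichletEigenvalue Isospectral)
open Pool.Agent.R225.LP (sd least_distance)
open Pool.Agent.Y289.SQ (per)

namespace Pool.Agent.Results.MP_2805c2_an.QuadrilateralsAmongConvexDomains

/-- a bounded convex domain of the plane -/
structure ConvexDomain (D : Set ℂ) : Prop where
  isOpen : IsOpen D
  convex : Convex ℝ D
  isBounded : Bornology.IsBounded D
  nonempty : D.Nonempty

/-- `D` is the interior of a convex polygon with exactly `k` vertices -/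
def IsPolygon (k : ℕ) (D : Set ℂ) : Prop :=
  ∃ m, m + 3 = k ∧ ∃ q : Fin (m + 3) → ℂ, IsConvexPolygon q ∧ region q = D

/-- congruence: `φ : ℂ ≃ᵢ ℂ` is an isometry of the plane -/
def Congruent (D D' : Set ℂ) : Prop := ∃ φ : ℂ ≃ᵢ ℂ, φ '' D = D'

/-- the distance of the side from `p k` to `p (k + 1)` from the opposite side -/
noncomputable def oppositeDistance (p : Fin (1 + 3) → ℂ) (k : Fin (1 + 3)) : ℝ :=
  sInf {r : ℝ | ∃ x ∈ segment ℝ (p k) (p (k + 1)), ∃ y ∈ segment ℝ (p (k + 2)) (p (k + 3)),
    r = dist x y}

/-- two opposite sides are parallel, or the distances of the two pairs of opposite sides differ -/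
def Regular (p : Fin (1 + 3) → ℂ) : Prop :=
  oppositeDistance p 0 ≠ oppositeDistance p 1 ∨
    ∃ (k : Fin (1 + 3)) (r : ℝ), p (k + 2) - p (k + 3) = r * (p (k + 1) - p k)

/-- the least distance between two opposite sides -/
noncomputable def leastDistance (p : Fin (1 + 3) → ℂ) : ℝ :=
  sInf {r : ℝ | ∃ i j : Fin (1 + 3), j ≠ i ∧ j ≠ i + 1 ∧ i ≠ j + 1 ∧
    ∃ x ∈ segment ℝ (p i) (p (i + 1)), ∃ y ∈ segment ℝ (p j) (p (j + 1)), r = dist x y}

/-- the perimeter -/
noncomputable def perimeter (p : Fin (1 + 3) → ℂ) : ℝ := ∑ i, ‖p (i + 1) - p i‖

/-- `D` is the interior of a convex quadrilateral which is `Regular` -/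
def RegularQuadrilateral (D : Set ℂ) : Prop :=
  ∃ q : Fin (1 + 3) → ℂ, IsConvexPolygon q ∧ region q = D ∧ Regular q

/-- `p : Fin (1 + 3) → ℂ` with `IsConvexPolygon p` lists the vertices of a convex quadrilateral
`region p` in counterclockwise order, `D` is any bounded convex domain with the same Dirichlet
eigenvalues, counted with multiplicity and defined by the min-max formula. -/
theorem result (p : Fin (1 + 3) → ℂ) (hp : IsConvexPolygon p) (hr : Regular p) (D : Set ℂ)
    (hD : ConvexDomain D)
    (h : ∀ k, 1 ≤ k → dirichletEigenvalue (region p) k = dirichletEigenvalue D k) :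
    Congruent (region p) D ∨ ¬ RegularQuadrilateral D ∧
      ∃ k ≥ 4, IsPolygon k D ∧ k * leastDistance p ≤ perimeter p := by
  by_cases hR : RegularQuadrilateral D
  · obtain ⟨q, hq, rfl, hrq⟩ := hR
    refine Or.inl (Pool.Agent.N275.QD.main_reg hp hq hr hrq ?_)
    refine Pool.Agent.R225.LP.almost hp hq ?_
    filter_upwards [eventually_ge_atTop 1] with k hk
    exact h k hk
  obtain ⟨m, q, hq, rfl⟩ := Pool.Agent.N596.IS.poly_of_iso hD.isOpen hD.convex hD.isBounded
    hD.nonempty hp fun k => (h (k + 1) (by omega)).symm
  have hiso : Isospectral (region p) (region q) := by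
    refine Pool.Agent.R225.LP.almost hp hq ?_
    filter_upwards [eventually_ge_atTop 1] with k hk
    exact h k hk
  rcases m with _ | m
  · obtain ⟨φ, hφ⟩ := Pool.Agent.R225.LP.triangle q hq 1 p hp fun k => (hiso k).symm
    left
    refine ⟨φ.symm, ?_⟩
    rw [← hφ, ← Set.image_comp]
    have : (φ.symm : ℂ → ℂ) ∘ φ = id := by
      funext z; exact φ.symm_apply_apply z
    rw [this, Set.image_id]
  · refine Or.inr ⟨hR, m + 1 + 3, by omega, ⟨m + 1, rfl, q, hq, rfl⟩, ?_⟩
    have h5 := (least_distance p q hp hq hiso).2.2
    have e : ((m + 1 + 3 : ℕ) : ℝ) = ((m + 1 : ℕ) : ℝ) + 3 := by push_cast; ring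
    rw [e]
    exact h5

end Pool.Agent.Results.MP_2805c2_an.QuadrilateralsAmongConvexDomains
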